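import Pool.Agent.Helper45.LinK.GoalsN

open Complex Metric Set Filter Topology MeasureTheory
open scoped ContDiff ComplexConjugate ComplexOrder Manifold

namespace Pool.Agent.Helper6.LinK

open Pool.Agent.Helper95.Lin Pool.Agent.Helper16.Abund Pool.Agent.Helper92.Orb
open Pool.Agent.Helper45.LinK

variable {b k : ℕ}

theorem base_append (z : Cn b) (w : Cn k) : base (Fin.append z w) = z := by
  funext i
  simp [base]

theorem vert_smul (c : ℂ) (u : Cn k) : (c • vert u : Cn (b + k)) = vert (c • u) := by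
  funext i
  refine Fin.addCases (fun i => ?_) (fun j => ?_) i
  · simp [vert]
  · simp [vert]

/-- The inclusion of the fibre is affine. -/
theorem hasFDerivAt_io (z : Cn b) (w : Cn k) :
    ∃ L : Cn k →L[ℝ] Cn (b + k), (∀ u, L u = vert u) ∧
      HasFDerivAt (𝕜 := ℝ) (fun w : Cn k => (Fin.append z w : Cn (b + k))) L w := by
  let L : Cn k →L[ℝ] Cn (b + k) := ContinuousLinearMap.pi (fun i =>
    Fin.addCases (motive := fun _ => Cn k →L[ℝ] ℂ) (fun _ => 0)
      (fun j => ContinuousLinearMap.proj (R := ℝ) (φ := fun _ : Fin k => ℂ) j) i)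
  refine ⟨L, ?_, ?_⟩
  · intro u
    funext i
    refine Fin.addCases (fun i => ?_) (fun j => ?_) i
    · simp [vert, L]
    · simp [vert, L]
  · rw [hasFDerivAt_pi']
    intro i
    refine Fin.addCases (fun i => ?_) (fun j => ?_) i
    · have h1 : (fun w : Cn k => (Fin.append z w : Cn (b + k)) (Fin.castAdd k i)) =
          fun _ => z i := by
        funext w; simp
      rw [h1]
      have h2 : (ContinuousLinearMap.proj (Fin.castAdd k i)).comp L =
          (0 : Cn k →L[ℝ] ℂ) := by
        ext u; simp [L]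
      rw [h2]
      exact hasFDerivAt_const _ _
    · have h1 : (fun w : Cn k => (Fin.append z w : Cn (b + k)) (Fin.natAdd b j)) =
          fun w => w j := by
        funext w; simp
      rw [h1]
      have h2 : (ContinuousLinearMap.proj (Fin.natAdd b j)).comp L =
          ContinuousLinearMap.proj (R := ℝ) (φ := fun _ : Fin k => ℂ) j := by
        ext u; simp [L]
      rw [h2]
      exact (ContinuousLinearMap.proj (R := ℝ) (φ := fun _ : Fin k => ℂ) j).hasFDerivAt

theorem dz_comp {z : Cn b} {w : Cn k} {f : Cn (b + k) → ℂ}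
    (hf : DifferentiableAt ℝ f (Fin.append z w)) (u : Cn k) :
    dz (vert u) f (Fin.append z w) = dz u (fun w' : Cn k => f (Fin.append z w')) w := by
  obtain ⟨L, hL, hL'⟩ := hasFDerivAt_io z w
  have h1 : HasFDerivAt (𝕜 := ℝ) (fun w' : Cn k => f (Fin.append z w'))
      ((fderiv ℝ f (Fin.append z w)).comp L) w := by
    exact HasFDerivAt.comp w hf.hasFDerivAt hL'
  unfold dz
  rw [h1.fderiv]
  simp only [ContinuousLinearMap.comp_apply, hL, vert_smul]

theorem differentiableAt_hermi {M : Set (Cn (b + k))}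
    {H : Cn (b + k) → Matrix (Fin (b + k)) (Fin (b + k)) ℂ} (hH : Met M H)
    {x : Cn (b + k)} (hx : x ∈ M) (u v : Cn (b + k)) :
    DifferentiableAt ℝ (fun x => hermi (H x) u v) x := by
  unfold hermi
  refine DifferentiableAt.fun_sum fun i _ => DifferentiableAt.fun_sum fun j _ => ?_
  have h1 : DifferentiableAt ℝ (fun x => H x i j) x :=
    ((hH.smooth i j).contDiffAt (hH.isOpen.mem_nhds hx)).differentiableAt (by simp)
  exact (h1.mul_const _).mul_const _

/-- The `(1,0)` derivative of `a conj b`, `a` and `b` holomorphic. -/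
theorem dz_mul_conj {a c : Cn k → ℂ} {w : Cn k} (ha : DifferentiableAt ℂ a w)
    (hc : DifferentiableAt ℂ c w) (u : Cn k) :
    DifferentiableAt ℝ (fun w => a w * conj (c w)) w ∧
    dz u (fun w => a w * conj (c w)) w = 2 * fderiv ℂ a w u * conj (c w) := by
  have h1 : HasFDerivAt (𝕜 := ℝ) a ((fderiv ℂ a w).restrictScalars ℝ) w :=
    ha.hasFDerivAt.restrictScalars ℝ
  have h2 : HasFDerivAt (𝕜 := ℝ) c ((fderiv ℂ c w).restrictScalars ℝ) w :=
    hc.hasFDerivAt.restrictScalars ℝ
  have h3 : HasFDerivAt (𝕜 := ℝ) (fun w => conj (c w))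
      ((conjCLE : ℂ →L[ℝ] ℂ).comp ((fderiv ℂ c w).restrictScalars ℝ)) w := by
    exact HasFDerivAt.comp w (conjCLE : ℂ →L[ℝ] ℂ).hasFDerivAt h2
  have h4 := h1.mul h3
  refine ⟨h4.differentiableAt, ?_⟩
  unfold dz
  have h5 : fderiv ℝ (fun w => a w * conj (c w)) w = _ := h4.fderiv
  rw [h5]
  simp only [ContinuousLinearMap.add_apply, ContinuousLinearMap.smul_apply,
    ContinuousLinearMap.comp_apply, ContinuousLinearMap.coe_restrictScalars', smul_eq_mul,
    ContinuousLinearEquiv.coe_coe, conjCLE_apply, map_smul, map_mul, conj_I]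
  linear_combination (a w * conj (fderiv ℂ c w u) - conj (c w) * fderiv ℂ a w u) * I_sq

/-- The derivative of an entire map is entire. -/
theorem entire_fderiv {F : Type} [NormedAddCommGroup F] [NormedSpace ℂ F] [CompleteSpace F]
    {f : Cn k → F} (hf : Differentiable ℂ f) : Differentiable ℂ (fderiv ℂ f) := by
  have := holo_fderiv (n := k) (F := F) isOpen_univ (f := f) hf.differentiableOn
  exact differentiableOn_univ.1 this

theorem inv_fderiv {Φ Φ' : Cn k → Cn k} (h : Differentiable ℂ Φ) (h' : Differentiable ℂ Φ')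
    (hl : ∀ w, Φ' (Φ w) = w) (w x : Cn k) : fderiv ℂ Φ' (Φ w) (fderiv ℂ Φ w x) = x := by
  have h1 : HasFDerivAt (fun w => Φ' (Φ w)) ((fderiv ℂ Φ' (Φ w)).comp (fderiv ℂ Φ w)) w :=
    HasFDerivAt.comp w (h' (Φ w)).hasFDerivAt (h w).hasFDerivAt
  have h2 : (fun w => Φ' (Φ w)) = id := funext hl
  rw [h2] at h1
  have h3 := h1.unique (hasFDerivAt_id w)
  have h4 := congrArg (fun L : Cn k →L[ℂ] Cn k => L x) h3
  simpa using h4

theorem FH : S_FH := by
  intro b k D H N hH hN z hz Φ Φ' hΦ
  obtain ⟨hd, hd', hl, hr, hfl⟩ := hΦ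
  have hmem : ∀ w : Cn k, (Fin.append z w : Cn (b + k)) ∈ tubeK D k := fun w => by
    show base _ ∈ D
    rw [base_append]
    exact hz
  have hD2 : Differentiable ℂ (fderiv ℂ Φ) := entire_fderiv hd
  have key : ∀ w u u' : Cn k, (2 : ℂ) • fderiv ℂ (fderiv ℂ Φ) w u u' =
      fderiv ℂ Φ w (N (Fin.append z w) u u') := by
    intro w u u'
    have h1 : ∀ y : Cn k, ∑ i, fderiv ℂ Φ w (N (Fin.append z w) u u') i * conj (fderiv ℂ Φ w y i) =
        ∑ i, 2 * fderiv ℂ (fderiv ℂ Φ) w u u' i * conj (fderiv ℂ Φ w y i) := by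
      intro y
      rw [← hfl, hN.eq _ (hmem w), dz_comp (differentiableAt_hermi hH (hmem w) _ _)]
      simp only [hfl]
      have ha : ∀ (x : Cn k) (i : Fin k), HasFDerivAt (fun w => fderiv ℂ Φ w x i)
          ((ContinuousLinearMap.proj (R := ℂ) (φ := fun _ : Fin k => ℂ) i).comp
            ((ContinuousLinearMap.apply ℂ (Cn k) x).comp (fderiv ℂ (fderiv ℂ Φ) w))) w := by
        intro x i
        have h2 : HasFDerivAt (fun w => fderiv ℂ Φ w x)
            ((ContinuousLinearMap.apply ℂ (Cn k) x).comp (fderiv ℂ (fderiv ℂ Φ) w)) w :=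
          HasFDerivAt.comp w (ContinuousLinearMap.apply ℂ (Cn k) x).hasFDerivAt
            (hD2 w).hasFDerivAt
        exact HasFDerivAt.comp w
          (ContinuousLinearMap.proj (R := ℂ) (φ := fun _ : Fin k => ℂ) i).hasFDerivAt h2
      have hb : ∀ i : Fin k, DifferentiableAt ℝ
          (fun w => fderiv ℂ Φ w u' i * conj (fderiv ℂ Φ w y i)) w ∧
          dz u (fun w => fderiv ℂ Φ w u' i * conj (fderiv ℂ Φ w y i)) w =
            2 * fderiv ℂ (fderiv ℂ Φ) w u u' i * conj (fderiv ℂ Φ w y i) := by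
        intro i
        have h3 := dz_mul_conj (ha u' i).differentiableAt (ha y i).differentiableAt u
        rw [(ha u' i).fderiv] at h3
        exact h3
      unfold dz at hb ⊢
      rw [fderiv_fun_sum (fun i _ => (hb i).1)]
      simp only [ContinuousLinearMap.sum_apply, Finset.smul_sum, ← Finset.sum_sub_distrib]
      exact Finset.sum_congr rfl fun i _ => (hb i).2
    funext i
    have h2 := h1 (fderiv ℂ Φ' (Φ w) (Pi.single i 1))
    have h3 : fderiv ℂ Φ w (fderiv ℂ Φ' (Φ w) (Pi.single i 1)) = Pi.single i 1 := by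
      have := inv_fderiv hd' hd hr (Φ w) (Pi.single i 1)
      rwa [hl w] at this
    rw [h3] at h2
    have h4 : ∀ c : Fin k → ℂ, ∑ j, c j * conj ((Pi.single i (1 : ℂ) : Cn k) j) = c i := by
      intro c
      rw [Finset.sum_eq_single i]
      · simp
      · intro j _ hj
        simp [Pi.single_eq_of_ne hj]
      · simp
    rw [h4 (fun j => fderiv ℂ Φ w (N (Fin.append z w) u u') j),
      h4 (fun j => 2 * fderiv ℂ (fderiv ℂ Φ) w u u' j)] at h2
    rw [h2]
    simp
  refine ⟨key, ?_⟩
  have hN2 : (fun w : Cn k => N (Fin.append z w)) = fun w =>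
      (ContinuousLinearMap.compL ℂ (Cn k) (Cn k) (Cn k) (fderiv ℂ Φ' (Φ w))).comp
        ((2 : ℂ) • fderiv ℂ (fderiv ℂ Φ) w) := by
    funext w
    ext1 u
    ext1 u'
    have h5 := inv_fderiv hd hd' hl w (N (Fin.append z w) u u')
    rw [← key w u u'] at h5
    rw [← h5]
    simp
  rw [hN2]
  have hP : Differentiable ℂ fun w => fderiv ℂ Φ' (Φ w) := (entire_fderiv hd').comp hd
  have hQ : Differentiable ℂ (fderiv ℂ (fderiv ℂ Φ)) := entire_fderiv hD2
  exact ((ContinuousLinearMap.compL ℂ (Cn k) (Cn k) (Cn k)).differentiable.comp hP).clm_comp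
    (hQ.const_smul (2 : ℂ))

end Pool.Agent.Helper6.LinK
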